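import Pool.Agent.Q253.Bir.Main

/-!
# MP_6528c2_nt: the number of sums of distinct `p^a q^b` under dilation

Let `q > p > 1` be coprime, `f(n)` the number of finite sets of numbers `p^a q^b` with sum `n`, `l ≥ 2`
and `c = log 2 log l / (log p log q)`. We prove the inequality asked for in Q1,
`f(l n) ≤ C n^(c + ε) f(n)` for all large `n`, for every `ε > 0`, and that the exponent is best
possible: `f(l n) ≥ C' n^(c - ε) f(n)` for all large `n`. So `f(l n) = n^(c + o(1)) f(n)`.

Outline. For `0 < λ ≤ 1` let `D(λ)` be the sum of the `log (1 + e^(-λ s))` over all `s = p^a q^b`.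

* Upper bound: `f(n) ≤ C e^(λ n) e^(D(λ)) λ^(1 - ε)` for all `λ`. The elements `p^a Q^i`, `i < B`,
  `Q = q^φ(p) ≡ 1 (mod p)`, with a fixed exponent `a` form a digit whose sum is nearly equidistributed
  modulo `p` if `B` is large, so that the number of sets of digits with a given sum modulo `p^k` is at
  most `((1 + η) 2^B / p)^k`.
* Lower bound: `f(n) ≥ e^(λ n) e^(D(λ)) λ^(1 + ε)` if the mean of the tilted sum is `n`. The same digits
  are used modulo `p^k`, with `p^k` close to `1 / λ`; the rest, a bounded multiple of `p^k`, is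
  represented by Birch's theorem (also proved here); `O(√(log n))` elements of size about `1 / λ`
  move the random sum of all other elements into the right window (Chebyshev's inequality).
* `D(λ / l) - D(λ) = (log 2 log l / (log p log q) + o(1)) log (1 / λ)`: for `l = p` and `l = q` this is
  a telescoping sum, and the numbers `a log p - b log q` are dense.
-/

set_option autoImplicit false

namespace Pool.Agent.Results.MP_6528c2_nt.DilationGrowth

/-- the number of finite sets of numbers `p^a q^b`, `a, b ≥ 0`, with the sum `n` -/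
noncomputable def f (p q n : ℕ) : ℕ :=
  Set.ncard {T : Finset ℕ | (∀ t ∈ T, ∃ a b : ℕ, t = p ^ a * q ^ b) ∧ ∑ t ∈ T, t = n}

/-- the exponent `log 2 log l / (log p log q)` -/
noncomputable def c (p q l : ℕ) : ℝ := Real.log 2 * Real.log l / (Real.log p * Real.log q)

/-- **The number of sums of distinct `p^a q^b` under dilation**: Q1 holds, and the exponent is best
possible for all `p, q, l`. -/
theorem result (p q : ℕ) (hp : 1 < p) (hpq : p < q) (h : Nat.Coprime p q) (l : ℕ) (hl : 2 ≤ l)
    (ε : ℝ) (hε : 0 < ε) :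
    (∃ C : ℝ, ∃ n₀ : ℕ, ∀ n : ℕ, n₀ ≤ n →
      (f p q (l * n) : ℝ) ≤ C * (n : ℝ) ^ (c p q l + ε) * f p q n) ∧
    (∃ C' : ℝ, 0 < C' ∧ ∃ n₀ : ℕ, ∀ n : ℕ, n₀ ≤ n →
      C' * (n : ℝ) ^ (c p q l - ε) * f p q n ≤ (f p q (l * n) : ℝ)) := by
  have hq : 1 < q := lt_trans hp hpq
  obtain ⟨C, _, n₀, hC⟩ := Pool.Agent.Q253.Bir.growth_upper hp hq h (show 1 ≤ l by omega) ε hε
  obtain ⟨C', hC', n₁, hC1⟩ := Pool.Agent.Q253.Bir.growth_lower hp hq h hl ε hε
  exact ⟨⟨C, n₀, hC⟩, ⟨C', hC', n₁, hC1⟩⟩

end Pool.Agent.Results.MP_6528c2_nt.DilationGrowth
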